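import Mathlib
import Pool.Agent.Lib_MP_412c32_gt.Defs
import Pool.Agent.Lib_MP_412c32_gt.CommC

/-!
# `r_s = 𝔠` for separable metrizable abelian groups of cardinality `𝔠`

The subgroup generated by the terms of a generating set of sequences of an abelian group is open, so
of countable index if the group is separable.
-/

open Pool.Agent.Lib_MP_412c32_gt TopologicalSpace Cardinal

namespace Pool.Agent.Results.MP_412c32_gt.AbelianContinuum

/-- Every separable metrizable abelian group `(G, τ)` of cardinality `𝔠` has `r_s(G, τ) = 𝔠`. -/
theorem result (G : Type) [CommGroup G] [τ : TopologicalSpace G] [IsTopologicalGroup G]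
    [MetrizableSpace G] [SeparableSpace G] (hG : #G = 𝔠) : rs τ = 𝔠 :=
  rs_comm hG

end Pool.Agent.Results.MP_412c32_gt.AbelianContinuum
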