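import Mathlib
import Pool.Agent.Lib_MP_412c32_gt.Defs
import Pool.Agent.Lib_MP_412c32_gt.Bounding
import Pool.Agent.Lib_MP_412c32_gt.CountB

/-!
# `r_s = 𝔟` for countable non-discrete metrizable groups

Fix a decreasing base `(V n)` of neighbourhoods of the identity, and a numbering of the group.  For
`f : ℕ → ℕ` let `s_f` enumerate the elements `g ≠ 1` whose number is at most `f (n)`, where `n` is
least with `g ∉ V n`.  If `F` is unbounded and consists of monotone functions, then the `s_f`,
`f ∈ F`, generate the topology; fewer than `𝔟` null sequences are all almost contained in one `s_f`,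
and one sequence does not generate the topology.
-/

open Pool.Agent.Lib_MP_412c32_gt TopologicalSpace

namespace Pool.Agent.Results.MP_412c32_gt.CountableBounding

/-- Every countable non-discrete metrizable group `(G, τ)` has `r_s(G, τ) = 𝔟`. -/
theorem result (G : Type) [Group G] [Countable G] [τ : TopologicalSpace G] [IsTopologicalGroup G]
    [MetrizableSpace G] (hd : ¬ DiscreteTopology G) : rs τ = bounding :=
  rs_countable hd

end Pool.Agent.Results.MP_412c32_gt.CountableBounding
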