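import Mathlib
import Pool.Agent.Lib_MP_412c32_gt.Defs
import Pool.Agent.Lib_MP_412c32_gt.Sym

/-!
# A non-discrete Polish group with `r_s = 1`

The group is `Sym(ℕ)` with the topology of pointwise convergence.  Let `s` be the universal null
sequence of permutations: the sequence `(s_n)` such that `ℕ`, as a set acted on by the permutations
`s_0, s_1, …`, is the disjoint union of infinitely many copies of each finite set with finitely many
permutations.  If `y_n` fixes `0, …, n-1` for every `n`, then `ℕ` can be cut in finite blocks such
that `y_n = a_n b_n`, where the `a_n` preserve the blocks of one partition of `ℕ` in finite sets, the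
`b_n` preserve the blocks of another one, and on each block all but finitely many of the `a_n`
(resp. `b_n`) are trivial.  The restriction of `a` to the even (or odd) blocks, together with a copy
of `s` on the other ones, is isomorphic to `s`, so that it is the product of a conjugate of `s` and
of the inverse of another one.  Hence `y_n → 1` in each group topology in which `s_n → 1`, so the
topology of pointwise convergence is the finest Hausdorff group topology in which `s_n → 1`.
-/

open Pool.Agent.Lib_MP_412c32_gt

namespace Pool.Agent.Results.MP_412c32_gt.SymGroup

/-- There is a non-discrete Polish (in particular separable metrizable) group `(G, τ)` with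
`r_s(G, τ) = 1`. -/
theorem result : ∃ (G : Type) (_ : Group G) (τ : TopologicalSpace G),
    IsTopologicalGroup G ∧ PolishSpace G ∧ ¬ DiscreteTopology G ∧ rs τ = 1 :=
  ⟨Equiv.Perm ℕ, inferInstance, permTop, topGroup_perm, polish_perm, not_discrete_perm, rs_perm⟩

end Pool.Agent.Results.MP_412c32_gt.SymGroup
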